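import Pool.Agent.Results.MP_b15c9e_ag.SymmetricPowers

/-!
# Dynamical Mordell-Lang for curves in the plane: symmetric squares of almost all quadratic maps
-/

set_option autoImplicit false

namespace Pool.Agent.Results.MP_1502ea_ag.SymmetricSquares

open MvPolynomial

/-- The rational function `f_v` of degree `2` with coefficients `v`, in homogeneous coordinates:
`(y₀ : y₁) ↦ (∑ v_{0,e} y₀^e y₁^(2-e) : ∑ v_{1,e} y₀^e y₁^(2-e))`. -/
noncomputable def ratMap (v : Fin 2 × Fin 3 → ℤ) (y : Fin 2 → ℂ) : Fin 2 → ℂ :=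
  fun j => ∑ e : Fin 3, (v (j, e) : ℂ) * (y 0 ^ (e : ℕ) * y 1 ^ (2 - (e : ℕ)))

/-- The coordinates in `ℙ^2 = Sym^2 ℙ^1` of the pair of points `(x_{i,0} : x_{i,1})` of `ℙ^1`:
the coefficients of `(x_{0,0} + x_{0,1} T) (x_{1,0} + x_{1,1} T)`. -/
noncomputable def symPoint (x : Fin 2 → Fin 2 → ℂ) : Fin 3 → ℂ :=
  fun j => (∏ i, (Polynomial.C (x i 0) + Polynomial.C (x i 1) * Polynomial.X)).coeff (j : ℕ)

/-- `F` is an endomorphism of `ℙ^2` given by quadratic forms. -/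
def IsEndo (F : Fin 3 → MvPolynomial (Fin 3) ℂ) : Prop :=
  (∀ i, (F i).IsHomogeneous 2) ∧ ∀ x : Fin 3 → ℂ, (∀ i, eval x (F i) = 0) → x = 0

/-- `F` is the symmetric square of `f_v`: `{P_1, P_2} ↦ {f_v(P_1), f_v(P_2)}`. -/
def IsSymSquare (v : Fin 2 × Fin 3 → ℤ) (F : Fin 3 → MvPolynomial (Fin 3) ℂ) : Prop :=
  ∀ x : Fin 2 → Fin 2 → ℂ,
    (fun j => eval (symPoint x) (F j)) = symPoint fun i => ratMap v (x i)

/-- For every point `a` of `ℙ^2` and every curve `g = 0`, `g` a form over `ℂ`, the return set is a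
finite union of arithmetic progressions. -/
def CurveReturns (F : Fin 3 → MvPolynomial (Fin 3) ℂ) : Prop :=
  ∀ (g : MvPolynomial (Fin 3) ℂ) (e : ℕ), g.IsHomogeneous e →
    ∀ a : Fin 3 → ℂ, a ≠ 0 → ∃ T : Finset (ℕ × ℕ),
      {n : ℕ | eval ((fun x : Fin 3 → ℂ => fun i => eval x (F i))^[n] a) g = 0} =
        {n : ℕ | ∃ q ∈ T, ∃ m : ℕ, n = q.1 * m + q.2}

/-- **Dynamical Mordell-Lang for curves in the plane: symmetric squares of almost all quadratic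
maps.** There is `δ > 0` such that for all large `H` and every cube `|v_q - b_q| ≤ H` in `ℤ^6`, for
all but a proportion `H ^ (-δ)` of the integral vectors `v` in the cube the symmetric square
`ℙ^2 → ℙ^2` of the quadratic rational function `f_v` is an endomorphism of degree `2` of `ℙ^2` all
of whose return sets (all complex points, all plane curves over `ℂ`) are finite unions of arithmetic
progressions. -/
theorem result :
    ∃ δ : ℝ, 0 < δ ∧ ∃ H₀ : ℕ, ∀ H : ℕ, H₀ ≤ H → ∀ b : Fin 2 × Fin 3 → ℤ,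
      (Nat.card {v : Fin 2 × Fin 3 → ℤ // (∀ q, |v q - b q| ≤ (H : ℤ)) ∧
        ¬ ∃ F : Fin 3 → MvPolynomial (Fin 3) ℂ, IsEndo F ∧ IsSymSquare v F ∧ CurveReturns F} : ℝ) ≤
        (H : ℝ) ^ (-δ) * (2 * H + 1 : ℝ) ^ 6 := by
  obtain ⟨δ, hδ, H₀, hH⟩ := MP_b15c9e_ag.SymmetricPowers.result
  refine ⟨δ, hδ, H₀, fun H hH₀ b => le_trans ?_ (hH H hH₀ b)⟩
  have key : ∀ v : Fin 2 × Fin 3 → ℤ,
      (∀ N : ℕ, 1 ≤ N → ∃ F : Fin (N + 1) → MvPolynomial (Fin (N + 1)) ℂ,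
        MP_b15c9e_ag.SymmetricPowers.IsEndo 2 F ∧
          MP_b15c9e_ag.SymmetricPowers.IsSymPower v F ∧ MP_b15c9e_ag.SymmetricPowers.DML F) →
      ∃ F : Fin 3 → MvPolynomial (Fin 3) ℂ, IsEndo F ∧ IsSymSquare v F ∧ CurveReturns F := by
    intro v h
    obtain ⟨F, h1, h2, h3⟩ := h 2 (by norm_num)
    refine ⟨F, h1, h2, fun g e hg a ha => ?_⟩
    obtain ⟨T, hT⟩ := h3 {g} (by
      intro g' hg'
      rw [Set.mem_singleton_iff] at hg'
      subst hg'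
      exact ⟨e, hg⟩) a ha
    refine ⟨T, ?_⟩
    rw [← hT]
    ext n
    simp only [Set.mem_ofPred_eq, Set.mem_singleton_iff, forall_eq]
  have hfin : Finite {v : Fin 2 × Fin 3 → ℤ // (∀ q, |v q - b q| ≤ (H : ℤ)) ∧
      ¬ ∀ N : ℕ, 1 ≤ N → ∃ F : Fin (N + 1) → MvPolynomial (Fin (N + 1)) ℂ,
        MP_b15c9e_ag.SymmetricPowers.IsEndo 2 F ∧
          MP_b15c9e_ag.SymmetricPowers.IsSymPower v F ∧ MP_b15c9e_ag.SymmetricPowers.DML F} := by
    apply Set.Finite.subset (Set.Finite.pi' fun q => Set.finite_Icc (b q - (H : ℤ)) (b q + H))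
    rintro v ⟨hv, -⟩ q
    have := abs_le.1 (hv q)
    exact ⟨by linarith [this.1], by linarith [this.2]⟩
  have hle := Nat.card_le_card_of_injective
    (fun v : {v : Fin 2 × Fin 3 → ℤ // (∀ q, |v q - b q| ≤ (H : ℤ)) ∧
        ¬ ∃ F : Fin 3 → MvPolynomial (Fin 3) ℂ, IsEndo F ∧ IsSymSquare v F ∧ CurveReturns F} =>
      (⟨v.1, v.2.1, fun h' => v.2.2 (key v.1 h')⟩ :
        {v : Fin 2 × Fin 3 → ℤ // (∀ q, |v q - b q| ≤ (H : ℤ)) ∧
          ¬ ∀ N : ℕ, 1 ≤ N → ∃ F : Fin (N + 1) → MvPolynomial (Fin (N + 1)) ℂ,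
            MP_b15c9e_ag.SymmetricPowers.IsEndo 2 F ∧
              MP_b15c9e_ag.SymmetricPowers.IsSymPower v F ∧
                MP_b15c9e_ag.SymmetricPowers.DML F}))
    (fun v w hvw => Subtype.ext (congrArg (fun z => z.1) hvw))
  exact_mod_cast hle

end Pool.Agent.Results.MP_1502ea_ag.SymmetricSquares
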